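import Mathlib
import Pool.Agent.W_MP_2d9473_co.Defs
import Pool.Agent.W_MP_2d9473_co.Proof

/-!
The case `r = 2` of the list colouring question, for every connected `H` with an edge.
-/

namespace Pool.Agent.Results.MP_2d9473_co.ListCaseTwo

open Pool.Agent.W_MP_2d9473_co

/-- Case `r = 2`: if `G` is `(K_{1,1} + H)`-minor-free, then from all lists of size at least `3`
there is a colouring without a monochromatic model of `H`. -/
theorem result {V W : Type} [Fintype V] [Fintype W] (H : SimpleGraph W) (hH : H.Connected)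
    (hE : H.edgeSet.Nonempty) (G : SimpleGraph V) (hG : ¬ IsMinor (join (star 1) H) G)
    (L : V → Finset ℕ) (hL : ∀ v, 3 ≤ (L v).card) :
    ∃ col : V → ℕ, (∀ v, col v ∈ L v) ∧
      ¬ ∃ (c : ℕ) (f : W → Set V), IsModel H G f ∧ ∀ w, ∀ x ∈ f w, col x = c := by
  have hE' : ∃ a b, H.Adj a b := by
    obtain ⟨e, he⟩ := hE
    induction e using Sym2.ind with
    | _ a b => exact ⟨a, b, he⟩
  obtain ⟨col, h1, h2⟩ := main_ind hH hE' hG (Set.univ : Set V).ncard Set.univ ∅ ∅ L le_rfl
    (Or.inl rfl) (Or.inl rfl) (Set.disjoint_empty _) (Set.disjoint_empty _) (Set.disjoint_empty _)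
    (fun h => absurd h Set.not_nonempty_empty) (fun v _ => (hL v).trans (Nat.le_add_right _ _))
  refine ⟨col, fun v => h1 v (Set.mem_univ v), ?_⟩
  rintro ⟨c, f, hf, hc⟩
  exact h2 ⟨c, f, hf, fun w => Set.subset_univ _, hc⟩

end Pool.Agent.Results.MP_2d9473_co.ListCaseTwo
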